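import Pool.Agent.Lib.MP_1f4983_al.FactorDefs

/-!
# Factorised groups with the normalizer condition

Let `G` satisfy the normalizer condition and let `G = A B` with subgroups `A`, `B`.

* `fix_of`: if `L` is a nontrivial normal subgroup of `G` and `L ∩ B` lies in the hypercentre of `B`, then `B`
  centralises some element `m ≠ 1` of `L` (if `L ∩ B = 1` this is the normalizer condition, applied to a maximal
  subgroup that contains `B` and meets `L` trivially). The conjugates of such an `m` in `G` are its conjugates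
  under `A`.
* `main`: take a maximal `A`-invariant subgroup `Y` which contains no nontrivial normal subgroup of `G` inside `M`
  (unions of chains are harmless, because the normal closure of an element `m` as above lies in every `A`-invariant
  subgroup which contains `m`). Its normalizer (if `A ≤ Y`), or an `A`-invariant `Y₁ > Y` with `Y₁ / Y` abelian,
  contains a nontrivial normal subgroup of `G`, so an element `m` as above, and the derived subgroup of the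
  normal closure of `m` is contained in `Y`: it is trivial.

Everything is done modulo a normal subgroup `N`.
-/

set_option autoImplicit false

namespace Pool.Agent.Lib.MP_1f4983_al.Factor

open scoped commutatorElement

variable {G : Type*} [Group G]

theorem le_chain_sSup {c : Set (Subgroup G)} (hc : IsChain (· ≤ ·) c) (hne : c.Nonempty) {x : G}
    (hx : x ∈ sSup c) : ∃ s ∈ c, x ∈ s :=
  (Subgroup.mem_sSup_of_directedOn hne hc.directedOn).1 hx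

/-- A normal subgroup `W` of `B` inside the hypercentre of `B`, not contained in `U`, has an element outside `U` which
is central modulo `U`. -/
theorem hyp_meets (B L W U : Subgroup G) (hL : InHypercentre L B)
    (hWL : W ≤ L) (hUB : U ≤ B) (hWn : ∀ b ∈ B, ∀ v ∈ W, b * v * b⁻¹ ∈ W)
    (hUn : ∀ b ∈ B, ∀ v ∈ U, b * v * b⁻¹ ∈ U) (hLB : L ≤ B) (hWU : ¬ W ≤ U) :
    ∃ w ∈ W, w ∉ U ∧ ∀ b ∈ B, ⁅b, w⁆ ∈ U := by
  obtain ⟨V, hUV, hV⟩ := zorn_le_nonempty₀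
    {V : Subgroup G | U ≤ V ∧ V ≤ B ∧ (∀ b ∈ B, ∀ v ∈ V, b * v * b⁻¹ ∈ V) ∧ ∀ x ∈ V, x ∈ W → x ∈ U} (by
      intro c hc hch L' hL'
      refine ⟨sSup c, ⟨le_trans (hc hL').1 (le_sSup hL'), sSup_le fun s hs => (hc hs).2.1, ?_, ?_⟩,
        fun z hz => le_sSup hz⟩
      · intro b hb v hv
        obtain ⟨s, hs, hvs⟩ := le_chain_sSup hch ⟨L', hL'⟩ hv
        exact le_sSup hs ((hc hs).2.2.1 b hb v hvs)
      · intro x hx hxW
        obtain ⟨s, hs, hxs⟩ := le_chain_sSup hch ⟨L', hL'⟩ hx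
        exact (hc hs).2.2.2 x hxs hxW) U ⟨le_rfl, hUB, hUn, fun x hx _ => hx⟩
  obtain ⟨-, hVB, hVn, hVW⟩ := hV.prop
  have hLV : ¬ L ≤ V := fun h => hWU fun x hx => hVW x (h (hWL hx)) hx
  obtain ⟨x, hxL, hxV, hxc⟩ := hL V hVB hVn hLV
  have hxB : x ∈ B := hLB hxL
  -- the subgroup generated by `V` and `x`
  let V₁ : Subgroup G :=
    { carrier := {z | ∃ k : ℤ, ∃ v ∈ V, z = x ^ k * v}
      one_mem' := ⟨0, 1, V.one_mem, by simp⟩
      mul_mem' := by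
        rintro _ _ ⟨k, v, hv, rfl⟩ ⟨l, w, hw, rfl⟩
        refine ⟨k + l, (x ^ l)⁻¹ * v * (x ^ l) * w, ?_, by rw [zpow_add]; group⟩
        have := hVn ((x ^ l)⁻¹) (B.inv_mem (B.zpow_mem hxB l)) v hv
        rw [inv_inv] at this
        exact V.mul_mem this hw
      inv_mem' := by
        rintro _ ⟨k, v, hv, rfl⟩
        refine ⟨-k, x ^ k * v⁻¹ * (x ^ k)⁻¹, hVn _ (B.zpow_mem hxB k) _ (V.inv_mem hv), ?_⟩
        rw [zpow_neg]; group }
  have hxb : ∀ b ∈ B, ∀ k : ℤ, ∃ v ∈ V, b * x ^ k * b⁻¹ = x ^ k * v := by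
    intro b hb k
    have h1 : ∃ v ∈ V, b * x * b⁻¹ = v * x := ⟨⁅b, x⁆, hxc b hb, by rw [commutatorElement_def]; group⟩
    obtain ⟨v, hv, hvx⟩ := h1
    have h2 : b * x ^ k * b⁻¹ = (b * x * b⁻¹) ^ k := by rw [conj_zpow]
    rw [h2, hvx]
    -- `(v x)^k ∈ x^k V`
    have h3 : ∀ k : ℤ, ∃ w ∈ V, (v * x) ^ k = x ^ k * w := by
      intro k
      induction k using Int.induction_on with
      | zero => exact ⟨1, V.one_mem, by simp⟩
      | succ n ih =>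
        obtain ⟨w, hw, h⟩ := ih
        refine ⟨(x ^ (1 : ℤ))⁻¹ * (w * v) * x ^ (1 : ℤ), ?_, ?_⟩
        · have := hVn ((x ^ (1 : ℤ))⁻¹) (B.inv_mem (B.zpow_mem hxB 1)) (w * v) (V.mul_mem hw hv)
          rwa [inv_inv] at this
        · rw [zpow_add, zpow_add, h, zpow_one, zpow_one]
          group
      | pred n ih =>
        obtain ⟨w, hw, h⟩ := ih
        refine ⟨x * w * x⁻¹ * v⁻¹, ?_, ?_⟩
        · exact V.mul_mem (hVn x hxB w hw) (V.inv_mem hv)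
        · rw [zpow_sub, zpow_sub, h, zpow_one, zpow_one]
          group
    exact h3 k
  have hV₁V : V < V₁ := by
    refine lt_of_le_of_ne (fun v hv => ⟨0, v, hv, by simp⟩) ?_
    intro h
    apply hxV
    rw [h]
    exact ⟨1, 1, V.one_mem, by simp⟩
  have hnot : ¬ (U ≤ V₁ ∧ V₁ ≤ B ∧ (∀ b ∈ B, ∀ v ∈ V₁, b * v * b⁻¹ ∈ V₁) ∧ ∀ x ∈ V₁, x ∈ W → x ∈ U) := by
    intro h
    exact absurd hV₁V (not_lt_of_ge (hV.le_of_ge (y := V₁) h hV₁V.le))
  have hex : ∃ w ∈ V₁, w ∈ W ∧ w ∉ U := by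
    by_contra hcon
    push Not at hcon
    apply hnot
    refine ⟨le_trans hUV hV₁V.le, ?_, ?_, hcon⟩
    · rintro _ ⟨k, v, hv, rfl⟩
      exact B.mul_mem (B.zpow_mem hxB k) (hVB hv)
    · rintro b hb _ ⟨k, v, hv, rfl⟩
      obtain ⟨w, hw, h⟩ := hxb b hb k
      refine ⟨k, w * (b * v * b⁻¹), V.mul_mem hw (hVn b hb v hv), ?_⟩
      rw [← mul_assoc (x ^ k) w, ← h]
      group
  obtain ⟨w, ⟨k, v, hv, rfl⟩, hwW, hwU⟩ := hex
  refine ⟨x ^ k * v, hwW, hwU, fun b hb => ?_⟩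
  apply hVW
  · obtain ⟨u, hu, h⟩ := hxb b hb k
    have h1 : ⁅b, x ^ k * v⁆ = x ^ k * (u * (b * v * b⁻¹) * v⁻¹) * (x ^ k)⁻¹ := by
      rw [commutatorElement_def]
      have : b * (x ^ k * v) * b⁻¹ * (x ^ k * v)⁻¹ = (b * x ^ k * b⁻¹) * (b * v * b⁻¹) * v⁻¹ * (x ^ k)⁻¹ := by
        group
      rw [this, h]
      group
    rw [h1]
    exact hVn _ (B.zpow_mem hxB k) _ (V.mul_mem (V.mul_mem hu (hVn b hb v hv)) (V.inv_mem hv))
  · rw [commutatorElement_def]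
    exact W.mul_mem (hWn b hb _ hwW) (W.inv_mem hwW)

/-- If `B ∩ M ≤ N`, `M`, `N` normal, `N < M`, then some element of `M` outside `N` is centralised by `B` modulo `N`. -/
theorem exists_centralised (hG : ∀ H : Subgroup G, H < ⊤ → H < Subgroup.normalizer (H : Set G))
    (N M B : Subgroup G) (hN : N.Normal) (hM : M.Normal) (hNM : N ≤ M) (hne : ¬ M ≤ N)
    (hB : ∀ x ∈ M, x ∈ B → x ∈ N) :
    ∃ m ∈ M, m ∉ N ∧ ∀ b ∈ B, ⁅b, m⁆ ∈ N := by
  obtain ⟨Y, hBY, hY⟩ := zorn_le_nonempty₀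
    {Y : Subgroup G | N ⊔ B ≤ Y ∧ ∀ x ∈ Y, x ∈ M → x ∈ N} (by
      intro c hc hch L' hL'
      refine ⟨sSup c, ⟨le_trans (hc hL').1 (le_sSup hL'), ?_⟩, fun z hz => le_sSup hz⟩
      intro x hx hxW
      obtain ⟨s, hs, hxs⟩ := le_chain_sSup hch ⟨L', hL'⟩ hx
      exact (hc hs).2 x hxs hxW) (N ⊔ B) ⟨le_rfl, by
        intro x hx hxM
        obtain ⟨n, hn, b, hb, rfl⟩ := Subgroup.mem_sup_of_normal_left.1 hx
        refine N.mul_mem hn (hB b ?_ hb)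
        have : b = n⁻¹ * (n * b) := by group
        rw [this]
        exact M.mul_mem (M.inv_mem (hNM hn)) hxM⟩
  have hlt : Y < ⊤ := by
    rw [lt_top_iff_ne_top]
    rintro rfl
    exact hne fun x hx => hY.prop.2 x (Subgroup.mem_top x) hx
  have hlt2 := hG Y hlt
  have hex : ∃ x ∈ Subgroup.normalizer (Y : Set G), x ∈ M ∧ x ∉ N := by
    by_contra hcon
    push Not at hcon
    exact absurd hlt2 (not_lt_of_ge (hY.le_of_ge (y := Subgroup.normalizer (Y : Set G))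
      ⟨le_trans hY.prop.1 hlt2.le, hcon⟩ hlt2.le))
  obtain ⟨m, hmN, hmM, hm⟩ := hex
  refine ⟨m, hmM, hm, fun b hb => hY.prop.2 _ ?_ ?_⟩
  · have hbY : b ∈ Y := hY.prop.1 (Subgroup.mem_sup_right hb)
    have h1 := (Subgroup.mem_normalizer_iff.1 hmN b⁻¹).1 (Y.inv_mem hbY)
    rw [commutatorElement_def]
    have : b * m * b⁻¹ * m⁻¹ = b * (m * b⁻¹ * m⁻¹) := by group
    rw [this]
    exact Y.mul_mem hbY h1
  · rw [commutatorElement_def]
    exact M.mul_mem (hM.conj_mem m hmM b) (M.inv_mem hmM)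

/-- the subgroup generated by `N` and the conjugates of `m` by elements of `A` -/
def Kl (N A : Subgroup G) (m : G) : Subgroup G :=
  Subgroup.closure ((N : Set G) ∪ {x | ∃ a ∈ A, x = a * m * a⁻¹})

theorem Kl_le {N A Y : Subgroup G} {m : G} (hNY : N ≤ Y) (hAY : ∀ a ∈ A, ∀ y ∈ Y, a * y * a⁻¹ ∈ Y)
    (hm : m ∈ Y) : Kl N A m ≤ Y := by
  apply (Subgroup.closure_le _).2
  rintro x (hx | ⟨a, ha, rfl⟩)
  · exact hNY hx
  · exact hAY a ha m hm

theorem mem_Kl (N A : Subgroup G) (m : G) : m ∈ Kl N A m :=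
  Subgroup.subset_closure (Or.inr ⟨1, A.one_mem, by group⟩)

theorem le_Kl (N A : Subgroup G) (m : G) : N ≤ Kl N A m := fun _ hx => Subgroup.subset_closure (Or.inl hx)

theorem Kl_normal {N A B : Subgroup G} {m : G} (hN : N.Normal) (hAB : ∀ g : G, ∃ a ∈ A, ∃ b ∈ B, g = a * b)
    (hm : ∀ b ∈ B, ⁅b, m⁆ ∈ N) : (Kl N A m).Normal := by
  constructor
  intro x hx g
  unfold Kl at hx
  induction hx using Subgroup.closure_induction with
  | mem x hx =>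
    rcases hx with hx | ⟨a, ha, rfl⟩
    · exact le_Kl N A m (hN.conj_mem x hx g)
    · obtain ⟨a', ha', b', hb', h⟩ := hAB (g * a)
      have h1 : g * (a * m * a⁻¹) * g⁻¹ = (a' * ⁅b', m⁆ * a'⁻¹) * (a' * m * a'⁻¹) := by
        have : g * (a * m * a⁻¹) * g⁻¹ = (g * a) * m * (g * a)⁻¹ := by group
        rw [this, h, commutatorElement_def]
        group
      rw [h1]
      exact Subgroup.mul_mem _ (le_Kl N A m (hN.conj_mem _ (hm b' hb') a'))
        (Subgroup.subset_closure (Or.inr ⟨a', ha', rfl⟩))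
  | one =>
    rw [mul_one, mul_inv_cancel]
    exact Subgroup.one_mem _
  | mul x y _ _ ihx ihy =>
    have : g * (x * y) * g⁻¹ = (g * x * g⁻¹) * (g * y * g⁻¹) := by group
    rw [this]
    exact Subgroup.mul_mem _ ihx ihy
  | inv x _ ih =>
    have : g * x⁻¹ * g⁻¹ = (g * x * g⁻¹)⁻¹ := by group
    rw [this]
    exact Subgroup.inv_mem _ ih

/-- if `m` normalises `Y`, `A ≤ Y` and `N ≤ Y`, commutators of elements of `Kl N A m` lie in `Y` -/
theorem comm_Kl_mem {N A Y : Subgroup G} {m : G} (hNY : N ≤ Y) (hAY : A ≤ Y)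
    (hm : m ∈ Subgroup.normalizer (Y : Set G)) {x y : G} (hx : x ∈ Kl N A m) (hy : y ∈ Kl N A m) :
    ⁅x, y⁆ ∈ Y := by
  have hzp : ∀ k : ℤ, ∀ y ∈ Y, m ^ k * y * (m ^ k)⁻¹ ∈ Y := fun k y hy =>
    (Subgroup.mem_normalizer_iff.1 (Subgroup.zpow_mem _ hm k) y).1 hy
  have key : ∀ z ∈ Kl N A m, ∃ k : ℤ, ∃ y ∈ Y, z = m ^ k * y := by
    intro z hz
    unfold Kl at hz
    induction hz using Subgroup.closure_induction with
    | mem x hx =>
      rcases hx with hx | ⟨a, ha, rfl⟩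
      · exact ⟨0, x, hNY hx, by simp⟩
      · refine ⟨1, (m ^ (-1 : ℤ) * a * (m ^ (-1 : ℤ))⁻¹) * a⁻¹,
          Y.mul_mem (hzp (-1) a (hAY ha)) (Y.inv_mem (hAY ha)), ?_⟩
        group
    | one => exact ⟨0, 1, Y.one_mem, by simp⟩
    | mul x y _ _ ihx ihy =>
      obtain ⟨k, u, hu, rfl⟩ := ihx
      obtain ⟨l, v, hv, rfl⟩ := ihy
      refine ⟨k + l, (m ^ (-l) * u * (m ^ (-l))⁻¹) * v, Y.mul_mem (hzp (-l) u hu) hv, ?_⟩
      rw [zpow_add, zpow_neg]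
      group
    | inv x _ ih =>
      obtain ⟨k, u, hu, rfl⟩ := ih
      refine ⟨-k, m ^ k * u⁻¹ * (m ^ k)⁻¹, hzp k _ (Y.inv_mem hu), ?_⟩
      rw [zpow_neg]
      group
  obtain ⟨k, u, hu, rfl⟩ := key x hx
  obtain ⟨l, v, hv, rfl⟩ := key y hy
  have h1 : ⁅m ^ k * u, m ^ l * v⁆ =
      (m ^ k * u * (m ^ k)⁻¹) * (m ^ (k + l) * (v * u⁻¹) * (m ^ (k + l))⁻¹) * (m ^ l * v⁻¹ * (m ^ l)⁻¹) := by
    rw [commutatorElement_def, zpow_add]
    group
  rw [h1]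
  exact Y.mul_mem (Y.mul_mem (hzp k u hu) (hzp (k + l) _ (Y.mul_mem hv (Y.inv_mem hu))))
    (hzp l _ (Y.inv_mem hv))

/-- The main argument: `G = A B`, `N ≤ M` normal, `M ≠ N`. -/
theorem main (hG : ∀ H : Subgroup G, H < ⊤ → H < Subgroup.normalizer (H : Set G))
    (N M A B Y₀ : Subgroup G) (hN : N.Normal) (hM : M.Normal) (hNM : N ≤ M) (hne : ¬ M ≤ N)
    (hAB : ∀ g : G, ∃ a ∈ A, ∃ b ∈ B, g = a * b)
    (hfix : ∀ L : Subgroup G, L.Normal → N ≤ L → L ≤ M → ¬ L ≤ N → ∃ m ∈ L, m ∉ N ∧ ∀ b ∈ B, ⁅b, m⁆ ∈ N)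
    (hNY : N ≤ Y₀) (hAY : ∀ a ∈ A, ∀ y ∈ Y₀, a * y * a⁻¹ ∈ Y₀)
    (hcore : ∀ L : Subgroup G, L.Normal → L ≤ M → L ≤ Y₀ → L ≤ N)
    (hstep : ∀ Y : Subgroup G, Y₀ ≤ Y → (∀ a ∈ A, ∀ y ∈ Y, a * y * a⁻¹ ∈ Y) → ¬ A ≤ Y →
      ∃ Y₁ : Subgroup G, Y < Y₁ ∧ (∀ a ∈ A, ∀ y ∈ Y₁, a * y * a⁻¹ ∈ Y₁) ∧ ∀ x ∈ Y₁, ∀ y ∈ Y₁, ⁅x, y⁆ ∈ Y) :
    ∃ K : Subgroup G, K.Normal ∧ N < K ∧ K ≤ M ∧ ∀ x ∈ K, ∀ y ∈ K, ⁅x, y⁆ ∈ N := by
  obtain ⟨Y, hY0, hY⟩ := zorn_le_nonempty₀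
    {Y : Subgroup G | Y₀ ≤ Y ∧ (∀ a ∈ A, ∀ y ∈ Y, a * y * a⁻¹ ∈ Y) ∧
      ∀ L : Subgroup G, L.Normal → L ≤ M → L ≤ Y → L ≤ N} (by
      intro c hc hch L' hL'
      refine ⟨sSup c, ⟨le_trans (hc hL').1 (le_sSup hL'), ?_, ?_⟩, fun z hz => le_sSup hz⟩
      · intro b hb v hv
        obtain ⟨s, hs, hvs⟩ := le_chain_sSup hch ⟨L', hL'⟩ hv
        exact le_sSup hs ((hc hs).2.1 b hb v hvs)
      · intro L hLn hLM hLc
        by_contra hLN
        have hLM' : L ⊔ N ≤ M := sup_le hLM hNM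
        have hLc' : L ⊔ N ≤ sSup c := sup_le hLc (le_trans hNY (le_trans (hc hL').1 (le_sSup hL')))
        obtain ⟨m, hmL, hmN, hmB⟩ := hfix (L ⊔ N) inferInstance le_sup_right hLM'
          (fun h => hLN (le_trans le_sup_left h))
        obtain ⟨s, hs, hms⟩ := le_chain_sSup hch ⟨L', hL'⟩ (hLc' hmL)
        have h1 : Kl N A m ≤ N := (hc hs).2.2 (Kl N A m) (Kl_normal hN hAB hmB)
          (Kl_le hNM (fun a _ y hy => hM.conj_mem y hy a) (hLM' hmL))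
          (Kl_le (le_trans hNY (hc hs).1) (hc hs).2.1 hms)
        exact hmN (h1 (mem_Kl N A m))) Y₀ ⟨le_rfl, hAY, hcore⟩
  obtain ⟨-, hYA, hYc⟩ := hY.prop
  -- it is enough to find a larger `A`-invariant subgroup with small commutators
  have fin : ∀ Y₁ : Subgroup G, Y < Y₁ → (∀ a ∈ A, ∀ y ∈ Y₁, a * y * a⁻¹ ∈ Y₁) →
      (∀ m ∈ Y₁, ∀ x ∈ Kl N A m, ∀ y ∈ Kl N A m, ⁅x, y⁆ ∈ Y) →
      ∃ K : Subgroup G, K.Normal ∧ N < K ∧ K ≤ M ∧ ∀ x ∈ K, ∀ y ∈ K, ⁅x, y⁆ ∈ N := by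
    intro Y₁ hlt hinv hcomm
    have hnot : ¬ (∀ L : Subgroup G, L.Normal → L ≤ M → L ≤ Y₁ → L ≤ N) := fun h =>
      absurd hlt (not_lt_of_ge (hY.le_of_ge (y := Y₁) ⟨le_trans hY0 hlt.le, hinv, h⟩ hlt.le))
    push Not at hnot
    obtain ⟨L, hLn, hLM, hLY, hLN⟩ := hnot
    have hLM' : L ⊔ N ≤ M := sup_le hLM hNM
    have hLY' : L ⊔ N ≤ Y₁ := sup_le hLY (le_trans hNY (le_trans hY0 hlt.le))
    obtain ⟨m, hmL, hmN, hmB⟩ := hfix (L ⊔ N) inferInstance le_sup_right hLM'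
      (fun h => hLN (le_trans le_sup_left h))
    have hKn : (Kl N A m).Normal := Kl_normal hN hAB hmB
    have hKM : Kl N A m ≤ M := Kl_le hNM (fun a _ y hy => hM.conj_mem y hy a) (hLM' hmL)
    refine ⟨Kl N A m, hKn, lt_of_le_of_ne (le_Kl N A m) ?_, hKM, ?_⟩
    · intro h
      apply hmN
      rw [h]
      exact mem_Kl N A m
    · have h2 : ⁅Kl N A m, Kl N A m⁆ ≤ N := by
        apply hYc
        · exact Subgroup.commutator_normal _ _
        · exact le_trans (Subgroup.commutator_le_left _ _) hKM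
        · rw [Subgroup.commutator_le]
          exact fun x hx y hy => hcomm m (hLY' hmL) x hx y hy
      exact fun x hx y hy => h2 (Subgroup.commutator_mem_commutator hx hy)
  by_cases hAle : A ≤ Y
  · have hlt : Y < ⊤ := by
      rw [lt_top_iff_ne_top]
      rintro rfl
      exact hne (hYc M hM le_rfl le_top)
    have hlt2 := hG Y hlt
    refine fin _ hlt2 ?_ ?_
    · intro a ha y hy
      have ha' := hlt2.le (hAle ha)
      exact Subgroup.mul_mem _ (Subgroup.mul_mem _ ha' hy) (Subgroup.inv_mem _ ha')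
    · exact fun m hm x hx y hy => comm_Kl_mem (le_trans hNY hY0) hAle hm hx hy
  · obtain ⟨Y₁, hlt, hinv, hcomm⟩ := hstep Y hY0 hYA hAle
    refine fin Y₁ hlt hinv fun m hm x hx y hy => ?_
    have hle : Kl N A m ≤ Y₁ := Kl_le (le_trans (le_trans hNY hY0) hlt.le) hinv hm
    exact hcomm x (hle hx) y (hle hy)

/-- Subgroups inherit the normalizer condition. -/
theorem ncond_sub (hG : ∀ H : Subgroup G, H < ⊤ → H < Subgroup.normalizer (H : Set G)) (P : Subgroup G) :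
    ∀ H : Subgroup P, H < ⊤ → H < Subgroup.normalizer (H : Set P) := by
  intro H hH
  obtain ⟨Y, -, hY⟩ := zorn_le_nonempty₀
    {Y : Subgroup G | H.map P.subtype ≤ Y ∧ ∀ x : P, (x : G) ∈ Y → x ∈ H} (by
      intro c hc hch L' hL'
      refine ⟨sSup c, ⟨le_trans (hc hL').1 (le_sSup hL'), ?_⟩, fun z hz => le_sSup hz⟩
      intro x hx
      obtain ⟨s, hs, hxs⟩ := le_chain_sSup hch ⟨L', hL'⟩ hx
      exact (hc hs).2 x hxs) (H.map P.subtype) ⟨le_rfl, by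
        rintro x ⟨y, hy, hyx⟩
        have : y = x := Subtype.ext hyx
        rw [← this]
        exact hy⟩
  have hlt : Y < ⊤ := by
    rw [lt_top_iff_ne_top]
    rintro rfl
    apply hH.ne
    rw [eq_top_iff]
    exact fun x _ => hY.prop.2 x (Subgroup.mem_top _)
  have hlt2 := hG Y hlt
  have hex : ∃ x : P, (x : G) ∈ Subgroup.normalizer (Y : Set G) ∧ x ∉ H := by
    by_contra hcon
    push Not at hcon
    exact absurd hlt2 (not_lt_of_ge (hY.le_of_ge (y := Subgroup.normalizer (Y : Set G))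
      ⟨le_trans hY.prop.1 hlt2.le, hcon⟩ hlt2.le))
  obtain ⟨x, hxN, hxH⟩ := hex
  have hin : ∀ y : P, y ∈ H → (y : G) ∈ Y := fun y hy => hY.prop.1 ⟨y, hy, rfl⟩
  refine lt_of_le_of_ne Subgroup.le_normalizer ?_
  intro h
  apply hxH
  rw [h]
  rw [Subgroup.mem_normalizer_iff]
  intro y
  constructor
  · intro hy
    apply hY.prop.2
    have := (Subgroup.mem_normalizer_iff.1 hxN (y : G)).1 (hin y hy)
    simpa using this
  · intro hy
    apply hY.prop.2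
    have := (Subgroup.mem_normalizer_iff.1 hxN (y : G)).2 (by simpa using hin _ hy)
    exact this

theorem Hyperabelian.congr {G H : Type*} [Group G] [Group H] (e : G ≃* H) (h : Hyperabelian G) :
    Hyperabelian H := by
  intro N hN hNt
  have hN' : (N.comap e.toMonoidHom).Normal := hN.comap _
  obtain ⟨K, hK, hlt, hc⟩ := h (N.comap e.toMonoidHom) hN' (by
    intro ht
    apply hNt
    rw [eq_top_iff]
    intro x _
    have : e.symm x ∈ N.comap e.toMonoidHom := by rw [ht]; exact Subgroup.mem_top _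
    simpa using this)
  refine ⟨K.map e.toMonoidHom, hK.map _ e.surjective, ?_, ?_⟩
  · refine lt_of_le_of_ne ?_ ?_
    · intro x hx
      exact ⟨e.symm x, hlt.le (by simpa using hx), by simp⟩
    · intro heq
      apply hlt.ne
      apply le_antisymm hlt.le
      intro x hx
      have h1 : e x ∈ K.map e.toMonoidHom := ⟨x, hx, rfl⟩
      rw [← heq] at h1
      exact h1
  · rintro _ ⟨x, hx, rfl⟩ _ ⟨y, hy, rfl⟩
    have := hc x hx y hy
    have h2 : e ⁅x, y⁆ ∈ N := this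
    rw [map_commutatorElement] at h2
    exact h2

theorem Hypercentral.congr {G H : Type*} [Group G] [Group H] (e : G ≃* H) (h : Hypercentral G) :
    Hypercentral H := by
  intro N hN hNt
  have hN' : (N.comap e.toMonoidHom).Normal := hN.comap _
  obtain ⟨x, hx, hc⟩ := h (N.comap e.toMonoidHom) hN' (by
    intro ht
    apply hNt
    rw [eq_top_iff]
    intro x _
    have : e.symm x ∈ N.comap e.toMonoidHom := by rw [ht]; exact Subgroup.mem_top _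
    simpa using this)
  refine ⟨e x, hx, fun g => ?_⟩
  have h2 : e ⁅x, e.symm g⁆ ∈ N := hc (e.symm g)
  rw [map_commutatorElement, MulEquiv.apply_symm_apply] at h2
  exact h2

theorem Hypercentral.inHypercentre {B : Subgroup G} (h : Hypercentral B) : InHypercentre B B := by
  intro V hVB hVn hBV
  have hn : (V.subgroupOf B).Normal := by
    constructor
    intro v hv g
    exact hVn g g.2 v hv
  obtain ⟨x, hx, hc⟩ := h (V.subgroupOf B) hn (by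
    intro ht
    apply hBV
    intro b hb
    have : (⟨b, hb⟩ : B) ∈ V.subgroupOf B := by rw [ht]; exact Subgroup.mem_top _
    exact this)
  refine ⟨x, x.2, hx, fun b hb => ?_⟩
  have h1 : ((⁅x, (⟨b, hb⟩ : B)⁆ : B) : G) ∈ V := hc ⟨b, hb⟩
  have h2 : ⁅b, (x : G)⁆ = (((⁅x, (⟨b, hb⟩ : B)⁆ : B) : G))⁻¹ := by
    simp [commutatorElement_def, mul_assoc]
  rw [h2]
  exact V.inv_mem h1

/-- the step for a hyperabelian subgroup `A` -/
theorem hyp_step {A : Subgroup G} (hA : Hyperabelian A) (Y : Subgroup G)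
    (hYA : ∀ a ∈ A, ∀ y ∈ Y, a * y * a⁻¹ ∈ Y) (hAY : ¬ A ≤ Y) :
    ∃ Y₁ : Subgroup G, Y < Y₁ ∧ (∀ a ∈ A, ∀ y ∈ Y₁, a * y * a⁻¹ ∈ Y₁) ∧ ∀ x ∈ Y₁, ∀ y ∈ Y₁, ⁅x, y⁆ ∈ Y := by
  have hn : (Y.subgroupOf A).Normal := by
    constructor
    intro v hv g
    exact hYA g g.2 v hv
  obtain ⟨K, hK, hlt, hc⟩ := hA (Y.subgroupOf A) hn (by
    intro ht
    apply hAY
    intro b hb
    have : (⟨b, hb⟩ : A) ∈ Y.subgroupOf A := by rw [ht]; exact Subgroup.mem_top _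
    exact this)
  let Y₁ : Subgroup G :=
    { carrier := {z | ∃ k : A, k ∈ K ∧ ∃ v ∈ Y, z = (k : G) * v}
      one_mem' := ⟨1, K.one_mem, 1, Y.one_mem, by simp⟩
      mul_mem' := by
        rintro _ _ ⟨k, hk, v, hv, rfl⟩ ⟨l, hl, w, hw, rfl⟩
        refine ⟨k * l, K.mul_mem hk hl, (l : G)⁻¹ * v * l * w, ?_, by push_cast; group⟩
        have := hYA ((l : G)⁻¹) (A.inv_mem l.2) v hv
        rw [inv_inv] at this
        exact Y.mul_mem this hw
      inv_mem' := by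
        rintro _ ⟨k, hk, v, hv, rfl⟩
        refine ⟨k⁻¹, K.inv_mem hk, (k : G) * v⁻¹ * (k : G)⁻¹, hYA _ k.2 _ (Y.inv_mem hv), ?_⟩
        push_cast
        group }
  have hle : Y ≤ Y₁ := fun v hv => ⟨1, K.one_mem, v, hv, by simp⟩
  refine ⟨Y₁, lt_of_le_of_ne hle ?_, ?_, ?_⟩
  · intro h
    apply hlt.ne
    apply le_antisymm hlt.le
    intro x hx
    have h1 : (x : G) ∈ Y₁ := ⟨x, hx, 1, Y.one_mem, by simp⟩
    rw [← h] at h1
    exact h1
  · rintro a ha _ ⟨k, hk, v, hv, rfl⟩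
    refine ⟨⟨a, ha⟩ * k * ⟨a, ha⟩⁻¹, hK.conj_mem k hk _, a * v * a⁻¹, hYA a ha v hv, ?_⟩
    push_cast
    group
  · rintro _ ⟨k, hk, v, hv, rfl⟩ _ ⟨l, hl, w, hw, rfl⟩
    have h0 : ((⁅k, l⁆ : A) : G) ∈ Y := hc k hk l hl
    have h1 : ⁅(k : G) * v, (l : G) * w⁆ = ((k : G) * v * (k : G)⁻¹) *
        ((k : G) * (l : G) * (w * v⁻¹) * ((k : G) * (l : G))⁻¹) * ((⁅k, l⁆ : A) : G) *
        ((l : G) * w⁻¹ * (l : G)⁻¹) := by
      simp only [commutatorElement_def]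
      push_cast
      group
    rw [h1]
    refine Y.mul_mem (Y.mul_mem (Y.mul_mem (hYA k k.2 v hv) ?_) h0) (hYA l l.2 _ (Y.inv_mem hw))
    exact hYA _ (A.mul_mem k.2 l.2) _ (Y.mul_mem hw (Y.inv_mem hv))

/-- Elements centralised by `B` modulo `N`. -/
theorem fix_of (hG : ∀ H : Subgroup G, H < ⊤ → H < Subgroup.normalizer (H : Set G)) (N L C B : Subgroup G)
    (hN : N.Normal) (hL : L.Normal) (hNL : N ≤ L) (hLN : ¬ L ≤ N) (hC : InHypercentre C B) (hCB : C ≤ B)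
    (hLC : L ⊓ B ≤ C) : ∃ m ∈ L, m ∉ N ∧ ∀ b ∈ B, ⁅b, m⁆ ∈ N := by
  by_cases hBL : ∀ x ∈ L, x ∈ B → x ∈ N
  · exact exists_centralised hG N L B hN hL hNL hLN hBL
  · push Not at hBL
    obtain ⟨x, hxL, hxB, hxN⟩ := hBL
    obtain ⟨w, hw, hwU, hwB⟩ := hyp_meets B C (L ⊓ B) (N ⊓ B) hC hLC inf_le_right
      (fun b hb v hv => ⟨hL.conj_mem v hv.1 b, B.mul_mem (B.mul_mem hb hv.2) (B.inv_mem hb)⟩)
      (fun b hb v hv => ⟨hN.conj_mem v hv.1 b, B.mul_mem (B.mul_mem hb hv.2) (B.inv_mem hb)⟩) hCB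
      (fun h => hxN (h ⟨hxL, hxB⟩).1)
    exact ⟨w, hw.1, fun h => hwU ⟨h, hw.2⟩, fun b hb => (hwB b hb).1⟩

/-- Two factors: `G = A B`, `A` hyperabelian, `B` hypercentral. -/
theorem two (hG : ∀ H : Subgroup G, H < ⊤ → H < Subgroup.normalizer (H : Set G)) (A B : Subgroup G)
    (hAB : ∀ g : G, ∃ a ∈ A, ∃ b ∈ B, g = a * b) (hA : Hyperabelian A) (hB : Hypercentral B) :
    Hyperabelian G := by
  intro N hN hNt
  have hM : (⊤ : Subgroup G).Normal := inferInstance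
  obtain ⟨K, hK, hlt, -, hc⟩ := main hG N ⊤ A B N hN hM le_top
    (fun h => hNt (top_le_iff.1 h)) hAB
    (fun L hL hNL _ hLN => fix_of hG N L B B hN hL hNL hLN hB.inHypercentre le_rfl inf_le_right) le_rfl
    (fun a _ y hy => hN.conj_mem y hy a) (fun L _ _ h => h)
    (fun Y _ hYA hAY => hyp_step hA Y hYA hAY)
  exact ⟨K, hK, hlt, hc⟩

/-- The main argument for the centre: `G = A B`, `N ≤ M` normal, `M ≠ N`. -/
theorem mainZ (hG : ∀ H : Subgroup G, H < ⊤ → H < Subgroup.normalizer (H : Set G))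
    (N M A B Y₀ : Subgroup G) (hN : N.Normal) (hM : M.Normal) (hNM : N ≤ M) (hne : ¬ M ≤ N)
    (hAB : ∀ g : G, ∃ a ∈ A, ∃ b ∈ B, g = a * b)
    (hfix : ∀ L : Subgroup G, L.Normal → N ≤ L → L ≤ M → ¬ L ≤ N → ∃ m ∈ L, m ∉ N ∧ ∀ b ∈ B, ⁅b, m⁆ ∈ N)
    (hNY : N ≤ Y₀) (hAY : ∀ a ∈ A, ∀ y ∈ Y₀, a * y * a⁻¹ ∈ Y₀)
    (hcore : ∀ L : Subgroup G, L.Normal → L ≤ M → L ≤ Y₀ → L ≤ N)
    (hstep : ∀ Y : Subgroup G, Y₀ ≤ Y → (∀ a ∈ A, ∀ y ∈ Y, a * y * a⁻¹ ∈ Y) → ¬ M ≤ Y → ¬ A ≤ Y →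
      ∃ Y₁ : Subgroup G, Y < Y₁ ∧ (∀ a ∈ A, ∀ y ∈ Y₁, a * y * a⁻¹ ∈ Y₁) ∧ ∀ a ∈ A, ∀ y ∈ Y₁, ⁅a, y⁆ ∈ Y) :
    ∃ m ∈ M, m ∉ N ∧ ∀ g : G, ⁅g, m⁆ ∈ N := by
  obtain ⟨Y, hY0, hY⟩ := zorn_le_nonempty₀
    {Y : Subgroup G | Y₀ ≤ Y ∧ (∀ a ∈ A, ∀ y ∈ Y, a * y * a⁻¹ ∈ Y) ∧
      ∀ L : Subgroup G, L.Normal → L ≤ M → L ≤ Y → L ≤ N} (by
      intro c hc hch L' hL'
      refine ⟨sSup c, ⟨le_trans (hc hL').1 (le_sSup hL'), ?_, ?_⟩, fun z hz => le_sSup hz⟩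
      · intro b hb v hv
        obtain ⟨s, hs, hvs⟩ := le_chain_sSup hch ⟨L', hL'⟩ hv
        exact le_sSup hs ((hc hs).2.1 b hb v hvs)
      · intro L hLn hLM hLc
        by_contra hLN
        have hLM' : L ⊔ N ≤ M := sup_le hLM hNM
        have hLc' : L ⊔ N ≤ sSup c := sup_le hLc (le_trans hNY (le_trans (hc hL').1 (le_sSup hL')))
        obtain ⟨m, hmL, hmN, hmB⟩ := hfix (L ⊔ N) inferInstance le_sup_right hLM'
          (fun h => hLN (le_trans le_sup_left h))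
        obtain ⟨s, hs, hms⟩ := le_chain_sSup hch ⟨L', hL'⟩ (hLc' hmL)
        have h1 : Kl N A m ≤ N := (hc hs).2.2 (Kl N A m) (Kl_normal hN hAB hmB)
          (Kl_le hNM (fun a _ y hy => hM.conj_mem y hy a) (hLM' hmL))
          (Kl_le (le_trans hNY (hc hs).1) (hc hs).2.1 hms)
        exact hmN (h1 (mem_Kl N A m))) Y₀ ⟨le_rfl, hAY, hcore⟩
  obtain ⟨-, hYA, hYc⟩ := hY.prop
  have fin : ∀ Y₁ : Subgroup G, Y < Y₁ → (∀ a ∈ A, ∀ y ∈ Y₁, a * y * a⁻¹ ∈ Y₁) →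
      (∀ a ∈ A, ∀ y ∈ Y₁, ⁅a, y⁆ ∈ Y) → ∃ m ∈ M, m ∉ N ∧ ∀ g : G, ⁅g, m⁆ ∈ N := by
    intro Y₁ hlt hinv hcomm
    have hnot : ¬ (∀ L : Subgroup G, L.Normal → L ≤ M → L ≤ Y₁ → L ≤ N) := fun h =>
      absurd hlt (not_lt_of_ge (hY.le_of_ge (y := Y₁) ⟨le_trans hY0 hlt.le, hinv, h⟩ hlt.le))
    push Not at hnot
    obtain ⟨L, hLn, hLM, hLY, hLN⟩ := hnot
    have hLM' : L ⊔ N ≤ M := sup_le hLM hNM
    have hLY' : L ⊔ N ≤ Y₁ := sup_le hLY (le_trans hNY (le_trans hY0 hlt.le))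
    obtain ⟨m, hmL, hmN, hmB⟩ := hfix (L ⊔ N) inferInstance le_sup_right hLM'
      (fun h => hLN (le_trans le_sup_left h))
    refine ⟨m, hLM' hmL, hmN, ?_⟩
    -- the commutators `[g, m]` lie in `Y`
    have h1 : ∀ g : G, ⁅g, m⁆ ∈ Y := by
      intro g
      obtain ⟨a, ha, b, hb, rfl⟩ := hAB g
      have h2 : ⁅a * b, m⁆ = (a * ⁅b, m⁆ * a⁻¹) * ⁅a, m⁆ := by
        simp only [commutatorElement_def]
        group
      rw [h2]
      exact Y.mul_mem (hYA a ha _ (le_trans hNY hY0 (hmB b hb))) (hcomm a ha m (hLY' hmL))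
    have h2 : ∀ g : G, ⁅g, m⁆ ∈ M := by
      intro g
      rw [commutatorElement_def]
      exact M.mul_mem (hM.conj_mem m (hLM' hmL) g) (M.inv_mem (hLM' hmL))
    have hR : (Subgroup.closure {x | ∃ g : G, x = ⁅g, m⁆}).Normal := by
      constructor
      intro x hx h
      induction hx using Subgroup.closure_induction with
      | mem x hx =>
        obtain ⟨g, rfl⟩ := hx
        have h3 : h * ⁅g, m⁆ * h⁻¹ = ⁅h * g, m⁆ * ⁅h, m⁆⁻¹ := by
          simp only [commutatorElement_def]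
          group
        rw [h3]
        exact Subgroup.mul_mem _ (Subgroup.subset_closure ⟨h * g, rfl⟩)
          (Subgroup.inv_mem _ (Subgroup.subset_closure ⟨h, rfl⟩))
      | one =>
        rw [mul_one, mul_inv_cancel]
        exact Subgroup.one_mem _
      | mul x y _ _ ihx ihy =>
        have : h * (x * y) * h⁻¹ = (h * x * h⁻¹) * (h * y * h⁻¹) := by group
        rw [this]
        exact Subgroup.mul_mem _ ihx ihy
      | inv x _ ih =>
        have : h * x⁻¹ * h⁻¹ = (h * x * h⁻¹)⁻¹ := by group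
        rw [this]
        exact Subgroup.inv_mem _ ih
    have h3 := hYc _ hR ((Subgroup.closure_le _).2 (by rintro x ⟨g, rfl⟩; exact h2 g))
      ((Subgroup.closure_le _).2 (by rintro x ⟨g, rfl⟩; exact h1 g))
    exact fun g => h3 (Subgroup.subset_closure ⟨g, rfl⟩)
  by_cases hAle : A ≤ Y
  · have hlt : Y < ⊤ := by
      rw [lt_top_iff_ne_top]
      rintro rfl
      exact hne (hYc M hM le_rfl le_top)
    have hlt2 := hG Y hlt
    refine fin _ hlt2 ?_ ?_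
    · intro a ha y hy
      have ha' := hlt2.le (hAle ha)
      exact Subgroup.mul_mem _ (Subgroup.mul_mem _ ha' hy) (Subgroup.inv_mem _ ha')
    · intro a ha y hy
      have h1 := (Subgroup.mem_normalizer_iff.1 hy a⁻¹).1 (Y.inv_mem (hAle ha))
      have h2 : ⁅a, y⁆ = a * (y * a⁻¹ * y⁻¹) := by
        rw [commutatorElement_def]
        group
      rw [h2]
      exact Y.mul_mem (hAle ha) h1
  · obtain ⟨Y₁, hlt, hinv, hcomm⟩ := hstep Y hY0 hYA (fun h => hne (hYc M hM le_rfl h)) hAle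
    exact fin Y₁ hlt hinv hcomm

/-- the step for a subgroup `C` of the hypercentre of `A` -/
theorem cen_step {C A : Subgroup G} (hA : InHypercentre C A) (hCA : C ≤ A) (Y : Subgroup G)
    (hYA : ∀ a ∈ A, ∀ y ∈ Y, a * y * a⁻¹ ∈ Y) (hCY : ¬ C ≤ Y) :
    ∃ Y₁ : Subgroup G, Y < Y₁ ∧ (∀ a ∈ A, ∀ y ∈ Y₁, a * y * a⁻¹ ∈ Y₁) ∧ ∀ a ∈ A, ∀ y ∈ Y₁, ⁅a, y⁆ ∈ Y := by
  obtain ⟨x, hxC, hx, hc⟩ := hA (Y ⊓ A) inf_le_right
    (fun b hb v hv => ⟨hYA b hb v hv.1, A.mul_mem (A.mul_mem hb hv.2) (A.inv_mem hb)⟩)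
    (fun h => hCY (le_trans h inf_le_left))
  have hxA : x ∈ A := hCA hxC
  have hxY : x ∉ Y := fun h => hx ⟨h, hxA⟩
  have hxa : ∀ a ∈ A, ∀ k : ℤ, ∃ v ∈ Y, a * (x : G) ^ k * a⁻¹ = (x : G) ^ k * v := by
    intro a ha k
    have h1 : ∃ v ∈ Y, a * (x : G) * a⁻¹ = v * x := by
      exact ⟨⁅a, (x : G)⁆, (hc a ha).1, by rw [commutatorElement_def]; group⟩
    obtain ⟨v, hv, hvx⟩ := h1
    have h2 : a * (x : G) ^ k * a⁻¹ = (a * (x : G) * a⁻¹) ^ k := by rw [conj_zpow]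
    rw [h2, hvx]
    have h3 : ∀ k : ℤ, ∃ w ∈ Y, (v * (x : G)) ^ k = (x : G) ^ k * w := by
      intro k
      induction k using Int.induction_on with
      | zero => exact ⟨1, Y.one_mem, by simp⟩
      | succ n ih =>
        obtain ⟨w, hw, h⟩ := ih
        refine ⟨((x : G) ^ (1 : ℤ))⁻¹ * (w * v) * (x : G) ^ (1 : ℤ), ?_, ?_⟩
        · have := hYA (((x : G) ^ (1 : ℤ))⁻¹) (A.inv_mem (A.zpow_mem hxA 1)) (w * v) (Y.mul_mem hw hv)
          rwa [inv_inv] at this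
        · rw [zpow_add, zpow_add, h, zpow_one, zpow_one]
          group
      | pred n ih =>
        obtain ⟨w, hw, h⟩ := ih
        refine ⟨(x : G) * w * (x : G)⁻¹ * v⁻¹, ?_, ?_⟩
        · exact Y.mul_mem (hYA x hxA w hw) (Y.inv_mem hv)
        · rw [zpow_sub, zpow_sub, h, zpow_one, zpow_one]
          group
    exact h3 k
  let Y₁ : Subgroup G :=
    { carrier := {z | ∃ k : ℤ, ∃ v ∈ Y, z = (x : G) ^ k * v}
      one_mem' := ⟨0, 1, Y.one_mem, by simp⟩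
      mul_mem' := by
        rintro _ _ ⟨k, v, hv, rfl⟩ ⟨l, w, hw, rfl⟩
        refine ⟨k + l, ((x : G) ^ l)⁻¹ * v * ((x : G) ^ l) * w, ?_, by rw [zpow_add]; group⟩
        have := hYA (((x : G) ^ l)⁻¹) (A.inv_mem (A.zpow_mem hxA l)) v hv
        rw [inv_inv] at this
        exact Y.mul_mem this hw
      inv_mem' := by
        rintro _ ⟨k, v, hv, rfl⟩
        refine ⟨-k, (x : G) ^ k * v⁻¹ * ((x : G) ^ k)⁻¹, hYA _ (A.zpow_mem hxA k) _ (Y.inv_mem hv), ?_⟩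
        rw [zpow_neg]; group }
  refine ⟨Y₁, lt_of_le_of_ne (fun v hv => ⟨0, v, hv, by simp⟩) ?_, ?_, ?_⟩
  · intro h
    apply hxY
    rw [h]
    exact ⟨1, 1, Y.one_mem, by simp⟩
  · rintro a ha _ ⟨k, v, hv, rfl⟩
    obtain ⟨w, hw, h⟩ := hxa a ha k
    refine ⟨k, w * (a * v * a⁻¹), Y.mul_mem hw (hYA a ha v hv), ?_⟩
    rw [← mul_assoc ((x : G) ^ k) w, ← h]
    group
  · rintro a ha _ ⟨k, v, hv, rfl⟩
    obtain ⟨u, hu, h⟩ := hxa a ha k
    have h1 : ⁅a, (x : G) ^ k * v⁆ = (x : G) ^ k * (u * (a * v * a⁻¹) * v⁻¹) * ((x : G) ^ k)⁻¹ := by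
      rw [commutatorElement_def]
      have : a * ((x : G) ^ k * v) * a⁻¹ * ((x : G) ^ k * v)⁻¹ =
          (a * (x : G) ^ k * a⁻¹) * (a * v * a⁻¹) * v⁻¹ * ((x : G) ^ k)⁻¹ := by
        group
      rw [this, h]
      group
    rw [h1]
    exact hYA _ (A.zpow_mem hxA k) _ (Y.mul_mem (Y.mul_mem hu (hYA a ha v hv)) (Y.inv_mem hv))

/-- Two hypercentral factors. -/
theorem twoZ (hG : ∀ H : Subgroup G, H < ⊤ → H < Subgroup.normalizer (H : Set G)) (A B : Subgroup G)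
    (hAB : ∀ g : G, ∃ a ∈ A, ∃ b ∈ B, g = a * b) (hA : Hypercentral A) (hB : Hypercentral B) :
    Hypercentral G := by
  intro N hN hNt
  have hM : (⊤ : Subgroup G).Normal := inferInstance
  obtain ⟨m, -, hmN, hc⟩ := mainZ hG N ⊤ A B N hN hM le_top
    (fun h => hNt (top_le_iff.1 h)) hAB
    (fun L hL hNL _ hLN => fix_of hG N L B B hN hL hNL hLN hB.inHypercentre le_rfl inf_le_right) le_rfl
    (fun a _ y hy => hN.conj_mem y hy a) (fun L _ _ h => h)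
    (fun Y _ hYA _ hAY => cen_step hA.inHypercentre le_rfl Y hYA hAY)
  refine ⟨m, hmN, fun g => ?_⟩
  rw [← commutatorElement_inv]
  exact N.inv_mem (hc g)

/-- A normal subgroup `M ≠ 1` which meets `B` inside the hypercentre of `B`, such that the normal subgroups of `G` inside
`M ∩ A` lie in the hypercentre of `A`. -/
theorem normalZ (hG : ∀ H : Subgroup G, H < ⊤ → H < Subgroup.normalizer (H : Set G)) (A B M : Subgroup G)
    (hAB : ∀ g : G, ∃ a ∈ A, ∃ b ∈ B, g = a * b) (hM : M.Normal) (hM1 : M ≠ ⊥)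
    (hB : InHypercentre (M ⊓ B) B)
    (hA : ∀ K : Subgroup G, K.Normal → K ≤ M ⊓ A → InHypercentre K A) :
    ∃ z ∈ M, z ≠ 1 ∧ ∀ g : G, g * z = z * g := by
  have hbn : (⊥ : Subgroup G).Normal := inferInstance
  have hMb : ¬ M ≤ ⊥ := fun h => hM1 (le_bot_iff.1 h)
  have hfix : ∀ L : Subgroup G, L.Normal → ⊥ ≤ L → L ≤ M → ¬ L ≤ ⊥ →
      ∃ m ∈ L, m ∉ (⊥ : Subgroup G) ∧ ∀ b ∈ B, ⁅b, m⁆ ∈ (⊥ : Subgroup G) := fun L hL hbL hLM hLb =>
    fix_of hG ⊥ L (M ⊓ B) B hbn hL hbL hLb hB inf_le_right (inf_le_inf_right B hLM)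
  have hmain : ∃ z ∈ M, z ∉ (⊥ : Subgroup G) ∧ ∀ g : G, ⁅g, z⁆ ∈ (⊥ : Subgroup G) := by
    by_cases hcf : ∀ K : Subgroup G, K.Normal → K ≤ M ⊓ A → K ≤ ⊥
    · exact mainZ hG ⊥ M A B A hbn hM bot_le hMb hAB hfix bot_le
        (fun a ha y hy => A.mul_mem (A.mul_mem ha hy) (A.inv_mem ha))
        (fun L hL hLM hLA => hcf L hL (le_inf hLM hLA)) (fun Y hAY _ _ h => absurd hAY h)
    · push Not at hcf
      obtain ⟨K, hK, hKM, hK1⟩ := hcf
      obtain ⟨z, hz, hz1, hc⟩ := mainZ hG ⊥ K A B ⊥ hbn hK bot_le hK1 hAB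
        (fun L hL hbL hLM hLb => hfix L hL hbL (le_trans hLM (le_trans hKM inf_le_left)) hLb) bot_le
        (fun a _ y hy => hbn.conj_mem y hy a) (fun L _ _ h => h)
        (fun Y _ hYA hKY _ => cen_step (hA K hK hKM) (le_trans hKM inf_le_right) Y hYA hKY)
      exact ⟨z, (le_trans hKM inf_le_left) hz, hz1, hc⟩
  obtain ⟨z, hzM, hz, hc⟩ := hmain
  exact ⟨z, hzM, fun h => hz (by rw [h]; exact Subgroup.one_mem _), fun g =>
    commutatorElement_eq_one_iff_mul_comm.1 (Subgroup.mem_bot.1 (hc g))⟩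

theorem Permutes.symm {X Y : Subgroup G} (h : Permutes X Y) : Permutes Y X := by
  intro y hy x hx
  obtain ⟨y', hy', x', hx', h1⟩ := h x⁻¹ (X.inv_mem hx) y⁻¹ (Y.inv_mem hy)
  refine ⟨x'⁻¹, X.inv_mem hx', y'⁻¹, Y.inv_mem hy', ?_⟩
  have : (x⁻¹ * y⁻¹)⁻¹ = (y' * x')⁻¹ := by rw [h1]
  rw [mul_inv_rev, inv_inv, inv_inv, mul_inv_rev] at this
  exact this

theorem Permutes.sup {X Y Z : Subgroup G} (h1 : Permutes X Z) (h2 : Permutes Y Z) : Permutes (X ⊔ Y) Z := by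
  intro w hw
  rw [Subgroup.sup_eq_closure] at hw
  induction hw using Subgroup.closure_induction_left with
  | one =>
    intro z hz
    exact ⟨z, hz, 1, Subgroup.one_mem _, by simp⟩
  | mul_left s hs w _ ih =>
    intro z hz
    obtain ⟨z', hz', w', hw', h⟩ := ih z hz
    rcases hs with hs | hs
    · obtain ⟨z'', hz'', s', hs', h'⟩ := h1 s hs z' hz'
      exact ⟨z'', hz'', s' * w', Subgroup.mul_mem _ (Subgroup.mem_sup_left hs') hw', by
        rw [mul_assoc, h, ← mul_assoc, h', mul_assoc]⟩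
    · obtain ⟨z'', hz'', s', hs', h'⟩ := h2 s hs z' hz'
      exact ⟨z'', hz'', s' * w', Subgroup.mul_mem _ (Subgroup.mem_sup_right hs') hw', by
        rw [mul_assoc, h, ← mul_assoc, h', mul_assoc]⟩
  | inv_mul_cancel s hs w _ ih =>
    intro z hz
    obtain ⟨z', hz', w', hw', h⟩ := ih z hz
    rcases hs with hs | hs
    · obtain ⟨z'', hz'', s', hs', h'⟩ := h1 s⁻¹ (X.inv_mem hs) z' hz'
      exact ⟨z'', hz'', s' * w', Subgroup.mul_mem _ (Subgroup.mem_sup_left hs') hw', by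
        rw [mul_assoc, h, ← mul_assoc, h', mul_assoc]⟩
    · obtain ⟨z'', hz'', s', hs', h'⟩ := h2 s⁻¹ (Y.inv_mem hs) z' hz'
      exact ⟨z'', hz'', s' * w', Subgroup.mul_mem _ (Subgroup.mem_sup_right hs') hw', by
        rw [mul_assoc, h, ← mul_assoc, h', mul_assoc]⟩

theorem Permutes.mem_sup {X Y : Subgroup G} (h1 : Permutes X Y) {w : G} (hw : w ∈ X ⊔ Y) :
    ∃ x ∈ X, ∃ y ∈ Y, w = x * y := by
  rw [Subgroup.sup_eq_closure] at hw
  induction hw using Subgroup.closure_induction_left with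
  | one => exact ⟨1, X.one_mem, 1, Y.one_mem, by simp⟩
  | mul_left s hs w _ ih =>
    obtain ⟨x, hx, y, hy, rfl⟩ := ih
    rcases hs with hs | hs
    · exact ⟨s * x, X.mul_mem hs hx, y, hy, by group⟩
    · obtain ⟨x', hx', s', hs', h'⟩ := h1.symm s hs x hx
      exact ⟨x', hx', s' * y, Y.mul_mem hs' hy, by rw [← mul_assoc, h', mul_assoc]⟩
  | inv_mul_cancel s hs w _ ih =>
    obtain ⟨x, hx, y, hy, rfl⟩ := ih
    rcases hs with hs | hs
    · exact ⟨s⁻¹ * x, X.mul_mem (X.inv_mem hs) hx, y, hy, by group⟩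
    · obtain ⟨x', hx', s', hs', h'⟩ := h1.symm s⁻¹ (Y.inv_mem hs) x hx
      exact ⟨x', hx', s' * y, Y.mul_mem hs' hy, by rw [← mul_assoc, h', mul_assoc]⟩

/-- product of two permutable subgroups inside `G` -/
theorem two_sub (hG : ∀ H : Subgroup G, H < ⊤ → H < Subgroup.normalizer (H : Set G)) (A B : Subgroup G)
    (hAB : Permutes A B) (hA : Hyperabelian A) (hB : Hypercentral B) :
    Hyperabelian (A ⊔ B : Subgroup G) := by
  refine two (ncond_sub hG (A ⊔ B)) (A.subgroupOf (A ⊔ B)) (B.subgroupOf (A ⊔ B)) ?_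
    (hA.congr (Subgroup.subgroupOfEquivOfLe le_sup_left).symm)
    (hB.congr (Subgroup.subgroupOfEquivOfLe le_sup_right).symm)
  rintro ⟨g, hg⟩
  obtain ⟨a, ha, b, hb, h⟩ := hAB.mem_sup hg
  exact ⟨⟨a, Subgroup.mem_sup_left ha⟩, ha, ⟨b, Subgroup.mem_sup_right hb⟩, hb, Subtype.ext h⟩

/-- product of two permutable hypercentral subgroups inside `G` -/
theorem two_subZ (hG : ∀ H : Subgroup G, H < ⊤ → H < Subgroup.normalizer (H : Set G)) (A B : Subgroup G)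
    (hAB : Permutes A B) (hA : Hypercentral A) (hB : Hypercentral B) :
    Hypercentral (A ⊔ B : Subgroup G) := by
  refine twoZ (ncond_sub hG (A ⊔ B)) (A.subgroupOf (A ⊔ B)) (B.subgroupOf (A ⊔ B)) ?_
    (hA.congr (Subgroup.subgroupOfEquivOfLe le_sup_left).symm)
    (hB.congr (Subgroup.subgroupOfEquivOfLe le_sup_right).symm)
  rintro ⟨g, hg⟩
  obtain ⟨a, ha, b, hb, h⟩ := hAB.mem_sup hg
  exact ⟨⟨a, Subgroup.mem_sup_left ha⟩, ha, ⟨b, Subgroup.mem_sup_right hb⟩, hb, Subtype.ext h⟩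

theorem manyZ (hG : ∀ H : Subgroup G, H < ⊤ → H < Subgroup.normalizer (H : Set G)) {ι : Type*}
    (i₀ : ι) (A : ι → Subgroup G) (hperm : ∀ i j, Permutes (A i) (A j)) (h0 : Hypercentral (A i₀))
    (s : Finset ι) (hs : ∀ i ∈ s, Hypercentral (A i)) :
    Hypercentral (A i₀ ⊔ ⨆ i ∈ s, A i : Subgroup G) ∧ ∀ j, Permutes (A i₀ ⊔ ⨆ i ∈ s, A i) (A j) := by
  classical
  induction s using Finset.induction_on with
  | empty =>
    have heq : (A i₀ ⊔ ⨆ i ∈ (∅ : Finset ι), A i : Subgroup G) = A i₀ := by simp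
    rw [heq]
    exact ⟨h0, fun j => hperm i₀ j⟩
  | insert a s _ ih =>
    obtain ⟨h1, h2⟩ := ih fun i hi => hs i (Finset.mem_insert_of_mem hi)
    have heq : (A i₀ ⊔ ⨆ i ∈ insert a s, A i : Subgroup G) = (A i₀ ⊔ ⨆ i ∈ s, A i) ⊔ A a := by
      rw [Finset.iSup_insert, sup_comm (A a), ← sup_assoc]
    rw [heq]
    exact ⟨two_subZ hG _ _ (h2 a) h1 (hs a (Finset.mem_insert_self a s)),
      fun j => Permutes.sup (h2 j) (hperm a j)⟩

theorem many (hG : ∀ H : Subgroup G, H < ⊤ → H < Subgroup.normalizer (H : Set G)) {ι : Type*}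
    (i₀ : ι) (A : ι → Subgroup G) (hperm : ∀ i j, Permutes (A i) (A j)) (h0 : Hyperabelian (A i₀))
    (s : Finset ι) (hs : ∀ i ∈ s, Hypercentral (A i)) :
    Hyperabelian (A i₀ ⊔ ⨆ i ∈ s, A i : Subgroup G) ∧ ∀ j, Permutes (A i₀ ⊔ ⨆ i ∈ s, A i) (A j) := by
  classical
  induction s using Finset.induction_on with
  | empty =>
    have heq : (A i₀ ⊔ ⨆ i ∈ (∅ : Finset ι), A i : Subgroup G) = A i₀ := by simp
    rw [heq]
    exact ⟨h0, fun j => hperm i₀ j⟩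
  | insert a s _ ih =>
    obtain ⟨h1, h2⟩ := ih fun i hi => hs i (Finset.mem_insert_of_mem hi)
    have heq : (A i₀ ⊔ ⨆ i ∈ insert a s, A i : Subgroup G) = (A i₀ ⊔ ⨆ i ∈ s, A i) ⊔ A a := by
      rw [Finset.iSup_insert, sup_comm (A a), ← sup_assoc]
    rw [heq]
    exact ⟨two_sub hG _ _ (h2 a) h1 (hs a (Finset.mem_insert_self a s)),
      fun j => Permutes.sup (h2 j) (hperm a j)⟩

end Pool.Agent.Lib.MP_1f4983_al.Factor
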