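import Mathlib

/-!
# Hyperabelian and hypercentral groups, permutable subgroups
-/

set_option autoImplicit false

namespace Pool.Agent.Lib.MP_1f4983_al.Factor

open scoped commutatorElement

/-- `G` is hyperabelian: every quotient `G / N ≠ 1` has a nontrivial abelian normal subgroup `K / N`. -/
def Hyperabelian (G : Type*) [Group G] : Prop :=
  ∀ N : Subgroup G, N.Normal → N ≠ ⊤ → ∃ K : Subgroup G, K.Normal ∧ N < K ∧ ∀ x ∈ K, ∀ y ∈ K, ⁅x, y⁆ ∈ N

/-- `G` is hypercentral: every quotient `G / N ≠ 1` has a nontrivial centre. -/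
def Hypercentral (G : Type*) [Group G] : Prop :=
  ∀ N : Subgroup G, N.Normal → N ≠ ⊤ → ∃ x : G, x ∉ N ∧ ∀ g : G, ⁅x, g⁆ ∈ N

/-- the subgroup `L` of `B` is contained in the hypercentre of `B`: whenever `V` is a normal subgroup of `B` which does
not contain `L`, some element of `L` outside `V` is central in `B` modulo `V`. -/
def InHypercentre {G : Type*} [Group G] (L B : Subgroup G) : Prop :=
  ∀ V : Subgroup G, V ≤ B → (∀ b ∈ B, ∀ v ∈ V, b * v * b⁻¹ ∈ V) → ¬ L ≤ V →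
    ∃ x ∈ L, x ∉ V ∧ ∀ b ∈ B, ⁅b, x⁆ ∈ V

/-- `X Y ⊆ Y X` (then `X Y = Y X`) -/
def Permutes {G : Type*} [Group G] (X Y : Subgroup G) : Prop := ∀ x ∈ X, ∀ y ∈ Y, ∃ y' ∈ Y, ∃ x' ∈ X, x * y = y' * x'

end Pool.Agent.Lib.MP_1f4983_al.Factor
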